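import Mathlib
import Pool.Agent.H643R2.ChainDec
import Pool.Agent.Q146.Helly.Retract

/-!
# Finite subposets realising the Helly number of a poset
-/

set_option autoImplicit false

namespace Pool.Agent.Results.MP_0878ad_co.FiniteSubposets

open Set

/-- A subset `S` of a poset `X` is partitionable (in `X`) if there is an element `x` of `X` such
that at least two distinct points of `S` are `≥ x` and at least two distinct points of `S` are
`≤ x`. -/
def Partitionable {X : Type*} [PartialOrder X] (S : Set X) : Prop :=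
  ∃ x : X, (∃ a ∈ S, ∃ b ∈ S, a ≠ b ∧ x ≤ a ∧ x ≤ b) ∧ (∃ a ∈ S, ∃ b ∈ S, a ≠ b ∧ a ≤ x ∧ b ≤ x)

/-- The Helly number `h(X)` of a poset: the supremum of the cardinalities of the nonpartitionable
subsets. -/
noncomputable def hellyNumber (X : Type*) [PartialOrder X] : ℕ∞ :=
  ⨆ S : {S : Set X // ¬ Partitionable S}, (S : Set X).encard

/-- The order-convex hull of a subset of a poset. -/
def convexHull {X : Type*} [PartialOrder X] (S : Set X) : Set X :=
  {x | ∃ a ∈ S, ∃ b ∈ S, a ≤ x ∧ x ≤ b}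

/-- Self-maps with finite image have an idempotent power. -/
theorem exists_idempotent {Y : Type*} [PartialOrder Y] (M : Y → Y) (hM : Monotone M)
    (hf : (range M).Finite) (E : Set Y) (hE : ∀ e ∈ E, M e = e) :
    ∃ r : Y → Y, Monotone r ∧ (range r).Finite ∧ (∀ e ∈ E, r e = e) ∧ ∀ y, r (r y) = r y := by
  have : Finite (range M) := hf.to_subtype
  have hmaps : ∀ i : ℕ, ∀ x ∈ range M, M^[i] x ∈ range M := by
    intro i x hx
    obtain ⟨y, rfl⟩ := hx
    exact ⟨M^[i] y, by rw [← Function.iterate_succ_apply' M i y, Function.iterate_succ_apply]⟩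
  obtain ⟨i, j, hij, h⟩ := Finite.exists_ne_map_eq_of_infinite
    (fun i : ℕ => (fun x : range M => (⟨M^[i] x, hmaps i x x.2⟩ : range M)))
  wlog hlt : i < j generalizing i j
  · exact this j i hij.symm h.symm (lt_of_le_of_ne (not_lt.1 hlt) hij.symm)
  have h1 : ∀ x ∈ range M, M^[i] x = M^[j] x := fun x hx =>
    congrArg Subtype.val (congrFun h ⟨x, hx⟩)
  obtain ⟨p, hp, rfl⟩ : ∃ p, 0 < p ∧ j = i + p := ⟨j - i, by omega, by omega⟩
  have h2 : ∀ m, i + 1 ≤ m → ∀ y, M^[m + p] y = M^[m] y := by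
    intro m hm y
    obtain ⟨d, rfl⟩ : ∃ d, m = d + (i + 1) := ⟨m - (i + 1), by omega⟩
    have h3 : M^[i + 1 + p] y = M^[i + 1] y := by
      have e1 : i + 1 + p = (i + p) + 1 := by omega
      rw [e1, Function.iterate_succ_apply, Function.iterate_succ_apply]
      exact (h1 (M y) ⟨y, rfl⟩).symm
    rw [add_assoc, Function.iterate_add_apply, h3, ← Function.iterate_add_apply]
  have h4 : ∀ q m, i + 1 ≤ m → ∀ y, M^[m + q * p] y = M^[m] y := by
    intro q
    induction q with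
    | zero => intro m _ y; simp
    | succ q ih =>
      intro m hm y
      have e1 : m + (q + 1) * p = (m + q * p) + p := by ring
      rw [e1, h2 _ (by omega), ih m hm]
  have hN : i + 1 ≤ (i + 1) * p := Nat.le_mul_of_pos_right _ hp
  refine ⟨M^[(i + 1) * p], hM.iterate _, ?_, ?_, ?_⟩
  · apply hf.subset
    rintro _ ⟨y, rfl⟩
    obtain ⟨d, hd⟩ : ∃ d, (i + 1) * p = d + 1 := ⟨(i + 1) * p - 1, by omega⟩
    rw [hd, Function.iterate_succ_apply']
    exact ⟨_, rfl⟩
  · intro e he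
    exact Function.iterate_fixed (hE e he) _
  · intro y
    rw [← Function.iterate_add_apply]
    exact h4 (i + 1) _ hN y

theorem encard_le {X : Type*} [PartialOrder X] {S : Set X} (hS : ¬ Partitionable S) :
    S.encard ≤ hellyNumber X :=
  le_iSup (fun S : {S : Set X // ¬ Partitionable S} => (S : Set X).encard) ⟨S, hS⟩

theorem Partitionable.mono {X : Type*} [PartialOrder X] {S T : Set X} (h : S ⊆ T)
    (hS : Partitionable S) : Partitionable T := by
  obtain ⟨x, ⟨a, ha, b, hb, h1⟩, ⟨c, hc, d, hd, h2⟩⟩ := hS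
  exact ⟨x, ⟨a, h ha, b, h hb, h1⟩, ⟨c, h hc, d, h hd, h2⟩⟩

/-- Every poset `X` with finite Helly number and every finite `E ⊆ X` admit a finite `F` with
`E ⊆ F ⊆ X` and `h(F) = h(X)`; moreover `F` can be chosen to be an order-preserving retract of its
order-convex hull in `X`. -/
theorem result {X : Type*} [PartialOrder X] (hX : hellyNumber X ≠ ⊤) (E : Set X)
    (hE : E.Finite) :
    ∃ F : Set X, F.Finite ∧ E ⊆ F ∧ hellyNumber F = hellyNumber X ∧
      ∃ r : X → X, (∀ x ∈ convexHull F, r x ∈ F) ∧ (∀ x ∈ F, r x = x) ∧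
        ∀ x ∈ convexHull F, ∀ y ∈ convexHull F, x ≤ y → r x ≤ r y := by
  classical
  obtain ⟨n, hn⟩ := ENat.ne_top_iff_exists.1 hX
  -- an optimal nonpartitionable set
  have hne : Nonempty {S : Set X // ¬ Partitionable S} := ⟨⟨∅, by
    rintro ⟨x, ⟨a, ha, _⟩, _⟩
    exact ha⟩⟩
  obtain ⟨⟨S, hS⟩, hSn⟩ := ENat.exists_eq_iSup_of_lt_top
    (f := fun S : {S : Set X // ¬ Partitionable S} => (S : Set X).encard)
    (lt_top_iff_ne_top.2 hX)
  have hSn' : S.encard = n := by
    rw [hn]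
    exact hSn
  have hSf : S.Finite := Set.finite_of_encard_eq_coe hSn'
  -- the width is finite
  have hw : ∀ A : Finset X, H643R2.ChainDec.IsAC A → A.card ≤ n := by
    intro A hA
    have h1 : ¬ Partitionable (A : Set X) := by
      rintro ⟨x, ⟨a, ha, b, hb, hab, h1, h2⟩, ⟨c, hc, d, hd, hcd, h3, h4⟩⟩
      have e1 := hA c hc a ha (h3.trans h1)
      have e2 := hA d hd a ha (h4.trans h1)
      exact hcd (e1.trans e2.symm)
    have h2 := encard_le h1
    rw [← hn, Set.encard_coe_eq_coe_finsetCard] at h2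
    exact_mod_cast h2
  obtain ⟨c, hc⟩ := H643R2.ChainDec.dilworth n hw
  -- the convex hull of `E ∪ S`
  set E₀ : Set X := E ∪ S with hE₀
  have hE₀f : E₀.Finite := hE.union hSf
  have hsub : E₀ ⊆ convexHull E₀ := fun x hx => ⟨x, hx, x, hx, le_rfl, le_rfl⟩
  have hEf : {x : convexHull E₀ | (x : X) ∈ E₀}.Finite :=
    hE₀f.preimage (Subtype.val_injective.injOn)
  obtain ⟨M, hM1, hM2, hM3⟩ := Q146.Helly.exists_finite_map
    (fun x : convexHull E₀ => c x) (fun a b h => hc a b h) hEf.toFinset (by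
      intro x
      obtain ⟨a, ha, b, hb, h1, h2⟩ := x.2
      exact ⟨⟨a, hsub ha⟩, hEf.mem_toFinset.2 ha, h1⟩)
  obtain ⟨r, hr1, hr2, hr3, hr4⟩ := exists_idempotent M hM1 hM2 {x | (x : X) ∈ E₀}
    (fun e he => hM3 e (hEf.mem_toFinset.2 he))
  set F : Set X := Subtype.val '' range r with hF
  have hE₀F : E₀ ⊆ F := by
    intro x hx
    exact ⟨⟨x, hsub hx⟩, ⟨⟨x, hsub hx⟩, hr3 _ hx⟩, rfl⟩
  have hFhull : F ⊆ convexHull E₀ := by
    rintro _ ⟨x, _, rfl⟩
    exact x.2
  have hhull : convexHull F ⊆ convexHull E₀ := by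
    rintro x ⟨a, ha, b, hb, h1, h2⟩
    obtain ⟨a', ha', _, _, h3, _⟩ := hFhull ha
    obtain ⟨_, _, b', hb', _, h4⟩ := hFhull hb
    exact ⟨a', ha', b', hb', h3.trans h1, h2.trans h4⟩
  -- the retraction
  let R : X → X := fun x => if h : x ∈ convexHull E₀ then (r ⟨x, h⟩ : X) else x
  have hR : ∀ x (h : x ∈ convexHull E₀), R x = (r ⟨x, h⟩ : X) := fun x h => dif_pos h
  have hR1 : ∀ x ∈ convexHull F, R x ∈ F := by
    intro x hx
    rw [hR x (hhull hx)]
    exact ⟨_, ⟨_, rfl⟩, rfl⟩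
  have hR2 : ∀ x ∈ F, R x = x := by
    intro x hx
    rw [hR x (hFhull hx)]
    obtain ⟨y, ⟨z, rfl⟩, rfl⟩ := hx
    exact congrArg Subtype.val (hr4 z)
  have hR3 : ∀ x ∈ convexHull F, ∀ y ∈ convexHull F, x ≤ y → R x ≤ R y := by
    intro x hx y hy hxy
    rw [hR x (hhull hx), hR y (hhull hy)]
    exact hr1 hxy
  refine ⟨F, hr2.image _, (subset_union_left).trans hE₀F, ?_, R, hR1, hR2, hR3⟩
  apply le_antisymm
  · -- upper bound
    apply iSup_le
    rintro ⟨T, hT⟩
    by_contra hcon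
    rw [not_le, ← hn] at hcon
    have hcon' : ((n + 1 : ℕ) : ℕ∞) ≤ T.encard := by
      have := Order.add_one_le_of_lt hcon
      exact_mod_cast this
    obtain ⟨T₀, hT₀, hT₀n⟩ := Set.exists_subset_encard_eq hcon'
    apply hT
    apply Partitionable.mono hT₀
    have h1 : Partitionable (Subtype.val '' T₀ : Set X) := by
      by_contra h2
      have h3 := encard_le h2
      rw [Function.Injective.encard_image Subtype.val_injective, hT₀n, ← hn] at h3
      have h4 : n + 1 ≤ n := by exact_mod_cast h3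
      omega
    obtain ⟨x, ⟨_, ⟨a, ha, rfl⟩, _, ⟨b, hb, rfl⟩, hab, h1, h2⟩,
      ⟨_, ⟨p, hp, rfl⟩, _, ⟨q, hq, rfl⟩, hpq, h3, h4⟩⟩ := h1
    have hx : x ∈ convexHull F := ⟨p, p.2, a, a.2, h3, h1⟩
    have hself : ∀ y : F, (y : X) ∈ convexHull F := fun y => ⟨y, y.2, y, y.2, le_rfl, le_rfl⟩
    refine ⟨⟨R x, hR1 x hx⟩, ⟨a, ha, b, hb, fun h => hab (congrArg _ h), ?_, ?_⟩,
      ⟨p, hp, q, hq, fun h => hpq (congrArg _ h), ?_, ?_⟩⟩
    · show R x ≤ (a : X)
      rw [← hR2 a a.2]
      exact hR3 x hx a (hself a) h1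
    · show R x ≤ (b : X)
      rw [← hR2 b b.2]
      exact hR3 x hx b (hself b) h2
    · show (p : X) ≤ R x
      rw [← hR2 p p.2]
      exact hR3 p (hself p) x hx h3
    · show (q : X) ≤ R x
      rw [← hR2 q q.2]
      exact hR3 q (hself q) x hx h4
  · -- lower bound
    have hSF : S ⊆ F := (subset_union_right).trans hE₀F
    have h1 : ¬ Partitionable ({x : F | (x : X) ∈ S}) := by
      rintro ⟨x, ⟨a, ha, b, hb, hab, h1, h2⟩, ⟨p, hp, q, hq, hpq, h3, h4⟩⟩
      exact hS ⟨x, ⟨a, ha, b, hb, fun h => hab (Subtype.ext h), h1, h2⟩,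
        ⟨p, hp, q, hq, fun h => hpq (Subtype.ext h), h3, h4⟩⟩
    have h2 := encard_le h1
    have h3 : ({x : F | (x : X) ∈ S}).encard = S.encard := by
      rw [← Function.Injective.encard_image Subtype.val_injective {x : F | (x : X) ∈ S}]
      congr 1
      ext x
      constructor
      · rintro ⟨y, hy, rfl⟩
        exact hy
      · intro hx
        exact ⟨⟨x, hSF hx⟩, hx, rfl⟩
    rw [h3, hSn', hn] at h2
    exact h2

end Pool.Agent.Results.MP_0878ad_co.FiniteSubposets
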